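import Mathlib
import Pool.Agent.X321.Homog

/-!
# Curves of arbitrarily large degree in projective four-space on no quadric that fail ND(2)

The curves are the images of the plane curves `(1 : t : t ^ r)` under the projected Veronese map
`(u v : u w : v w : u ^ 2 - v ^ 2 : v ^ 2 - w ^ 2)`.
-/

namespace Pool.Agent.Results.MP_63e4a9_ag.VeroneseCurves

open MvPolynomial Pool.Agent.X321.Homog

section Defs

variable {k : Type*} [Field k] {N : ℕ}

/-- The Hilbert function of the homogeneous coordinate ring `k[x_0, …, x_N] / I`: the dimension of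
the image of the space of forms of degree `m`. -/
noncomputable def hilbertFunction (I : Ideal (MvPolynomial (Fin (N + 1)) k)) (m : ℕ) : ℕ :=
  Module.finrank k (Submodule.map (Ideal.Quotient.mkₐ k I).toLinearMap
    (homogeneousSubmodule (Fin (N + 1)) k m))

/-- `I` is the homogeneous ideal of a variety (integral closed subscheme) in projective `N`-space
of dimension `n` and degree `d`: a homogeneous prime ideal whose Hilbert function agrees for large
arguments with a polynomial of degree `n` and leading coefficient `d / n!`. -/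
structure IsVariety (I : Ideal (MvPolynomial (Fin (N + 1)) k)) (n d : ℕ) : Prop where
  /-- the ideal is prime -/
  prime : I.IsPrime
  /-- the ideal contains the homogeneous components of its elements -/
  homogeneous : ∀ F ∈ I, ∀ m : ℕ, homogeneousComponent m F ∈ I
  /-- dimension and degree are read off from the Hilbert polynomial -/
  hilbert : ∃ H : Polynomial ℚ, H ≠ 0 ∧ H.natDegree = n ∧ H.leadingCoeff * n.factorial = d ∧
    ∃ m₀ : ℕ, ∀ m ≥ m₀, (hilbertFunction I m : ℚ) = H.eval (m : ℚ)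

/-- No hypersurface of degree `l` contains the variety with ideal `I`. -/
def OnNoHypersurface (I : Ideal (MvPolynomial (Fin (N + 1)) k)) (l : ℕ) : Prop :=
  ∀ Q : MvPolynomial (Fin (N + 1)) k, Q.IsHomogeneous l → Q ∈ I → Q = 0

/-- The ideal of the linear subspace given by the linear forms with coefficients `a i`. -/
noncomputable def linearIdeal {c : ℕ} (a : Fin c → Fin (N + 1) → k) :
    Ideal (MvPolynomial (Fin (N + 1)) k) :=
  Ideal.span (Set.range fun i => ∑ j, C (a i j) * X j)

/-- Condition ND(`l`) for a variety of codimension `e` with ideal `I`: for every dimension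
`L ≥ e` and for a general linear subspace of dimension `L` (one given by `N - L` linear forms
with coefficients `a i j` off the zero set of a nonzero polynomial `G`), a form `Q` of degree `l`
which lies in the saturation of the ideal generated by `I` and the linear forms already lies in the
ideal of the linear subspace, that is, no hypersurface of degree `l` in the linear subspace
contains its intersection with the variety. -/
def SatisfiesND (I : Ideal (MvPolynomial (Fin (N + 1)) k)) (e l : ℕ) : Prop :=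
  ∀ L : ℕ, e ≤ L → L ≤ N → ∃ G : MvPolynomial (Fin (N - L) × Fin (N + 1)) k, G ≠ 0 ∧
    ∀ a : Fin (N - L) → Fin (N + 1) → k, eval (fun p => a p.1 p.2) G ≠ 0 →
      ∀ Q : MvPolynomial (Fin (N + 1)) k, Q.IsHomogeneous l →
        (∃ r : ℕ, ∀ M : MvPolynomial (Fin (N + 1)) k, M.IsHomogeneous r →
          M * Q ∈ I ⊔ linearIdeal a) → Q ∈ linearIdeal a

end Defs

section Curve

variable {k : Type*} [Field k]

/-- the coordinate functions on the curve -/
noncomputable def ph (k : Type*) [Field k] (r : ℕ) : Fin 5 → Polynomial k :=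
  ![Polynomial.X, Polynomial.X ^ r, Polynomial.X ^ (r + 1), 1 - Polynomial.X ^ 2,
    Polynomial.X ^ 2 - Polynomial.X ^ (2 * r)]

/-- restriction of polynomials to the curve -/
noncomputable def ps (k : Type*) [Field k] (r : ℕ) : MvPolynomial (Fin (4 + 1)) k →ₐ[k] Polynomial k :=
  aeval (ph k r)

/-- the ideal of the curve -/
noncomputable def II (k : Type*) [Field k] (r : ℕ) : Ideal (MvPolynomial (Fin (4 + 1)) k) :=
  RingHom.ker ((Polynomial.mapRingHom (ps k r : MvPolynomial (Fin (4 + 1)) k →+* Polynomial k)).comp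
    (scal : MvPolynomial (Fin (4 + 1)) k →ₐ[k] Polynomial (MvPolynomial (Fin (4 + 1)) k)).toRingHom)

lemma mem_II {r : ℕ} {F : MvPolynomial (Fin (4 + 1)) k} :
    F ∈ II k r ↔ ∀ m, ps k r (homogeneousComponent m F) = 0 := by
  rw [II, RingHom.mem_ker]
  have h : ∀ m, (((Polynomial.mapRingHom (ps k r : MvPolynomial (Fin (4 + 1)) k →+* Polynomial k)).comp
    (scal : MvPolynomial (Fin (4 + 1)) k →ₐ[k] Polynomial (MvPolynomial (Fin (4 + 1)) k)).toRingHom)
      F).coeff m = ps k r (homogeneousComponent m F) := by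
    intro m
    have h1 := coeff_scal F m
    rw [← h1]
    simp
  constructor
  · intro h0 m
    rw [← h, h0, Polynomial.coeff_zero]
  · intro h0
    ext1 m
    rw [h, h0, Polynomial.coeff_zero]

lemma mem_II_of_isHomogeneous {r n : ℕ} {F : MvPolynomial (Fin (4 + 1)) k}
    (hF : F.IsHomogeneous n) : F ∈ II k r ↔ ps k r F = 0 := by
  rw [mem_II]
  constructor
  · intro h
    have := h n
    rwa [homogeneousComponent_of_mem hF, if_pos rfl] at this
  · intro h m
    rw [homogeneousComponent_of_mem hF]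
    split_ifs
    · exact h
    · exact map_zero _

lemma II_prime (r : ℕ) : (II k r).IsPrime := RingHom.ker_isPrime _

lemma II_homogeneous {r : ℕ} {F : MvPolynomial (Fin (4 + 1)) k} (hF : F ∈ II k r) (m : ℕ) :
    homogeneousComponent m F ∈ II k r := by
  rw [mem_II_of_isHomogeneous (homogeneousComponent_isHomogeneous m F)]
  exact mem_II.1 hF m

/-- the span of the monomials `t ^ (b + r c)` with `b + c ≤ j` -/
noncomputable def SS (k : Type*) [Field k] (r j : ℕ) : Submodule k (Polynomial k) :=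
  Submodule.span k {f | ∃ b c : ℕ, b + c ≤ j ∧ f = Polynomial.X ^ (b + r * c)}

lemma X_pow_mem {r j b c : ℕ} (h : b + c ≤ j) :
    (Polynomial.X ^ (b + r * c) : Polynomial k) ∈ SS k r j :=
  Submodule.subset_span ⟨b, c, h, rfl⟩

lemma mul_mem_SS {r i j : ℕ} {f g : Polynomial k} (hf : f ∈ SS k r i) (hg : g ∈ SS k r j) :
    f * g ∈ SS k r (i + j) := by
  have h : SS k r i * SS k r j ≤ SS k r (i + j) := by
    rw [SS, SS, Submodule.span_mul_span, Submodule.span_le]
    rintro _ ⟨_, ⟨b, c, hbc, rfl⟩, _, ⟨b', c', hbc', rfl⟩, rfl⟩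
    have : (Polynomial.X ^ (b + r * c) : Polynomial k) * Polynomial.X ^ (b' + r * c')
        = Polynomial.X ^ ((b + b') + r * (c + c')) := by
      rw [← pow_add]; congr 1; ring
    show (Polynomial.X ^ (b + r * c) : Polynomial k) * Polynomial.X ^ (b' + r * c') ∈ _
    rw [this]
    exact X_pow_mem (by omega)
  exact h (Submodule.mul_mem_mul hf hg)

lemma one_mem_SS (r : ℕ) : (1 : Polynomial k) ∈ SS k r 0 := by
  have := X_pow_mem (k := k) (r := r) (j := 0) (b := 0) (c := 0) (by omega)
  simpa using this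

lemma ph_mem_SS (r : ℕ) (i : Fin 5) : ph k r i ∈ SS k r 2 := by
  have e0 : (Polynomial.X : Polynomial k) ∈ SS k r 2 := by
    have := X_pow_mem (k := k) (r := r) (j := 2) (b := 1) (c := 0) (by omega)
    simpa using this
  have e1 : (Polynomial.X ^ r : Polynomial k) ∈ SS k r 2 := by
    have := X_pow_mem (k := k) (r := r) (j := 2) (b := 0) (c := 1) (by omega)
    simpa using this
  have e2 : (Polynomial.X ^ (r + 1) : Polynomial k) ∈ SS k r 2 := by
    have := X_pow_mem (k := k) (r := r) (j := 2) (b := 1) (c := 1) (by omega)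
    rwa [show 1 + r * 1 = r + 1 by ring] at this
  have e3 : (1 : Polynomial k) ∈ SS k r 2 := by
    have := X_pow_mem (k := k) (r := r) (j := 2) (b := 0) (c := 0) (by omega)
    simpa using this
  have e4 : (Polynomial.X ^ 2 : Polynomial k) ∈ SS k r 2 := by
    have := X_pow_mem (k := k) (r := r) (j := 2) (b := 2) (c := 0) (by omega)
    simpa using this
  have e5 : (Polynomial.X ^ (2 * r) : Polynomial k) ∈ SS k r 2 := by
    have := X_pow_mem (k := k) (r := r) (j := 2) (b := 0) (c := 2) (by omega)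
    rwa [show 0 + r * 2 = 2 * r by ring] at this
  fin_cases i
  · exact e0
  · exact e1
  · exact e2
  · exact Submodule.sub_mem _ e3 e4
  · exact Submodule.sub_mem _ e4 e5

lemma pow_mem_SS (r : ℕ) (i : Fin 5) (d : ℕ) : ph k r i ^ d ∈ SS k r (2 * d) := by
  induction d with
  | zero => simpa using one_mem_SS r
  | succ d ih =>
    rw [pow_succ]
    exact mul_mem_SS ih (ph_mem_SS r i)

lemma map_le (r m : ℕ) : Submodule.map (ps k r).toLinearMap
    (homogeneousSubmodule (Fin (4 + 1)) k m) ≤ SS k r (2 * m) := by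
  rintro _ ⟨F, hF, rfl⟩
  have hF' : F.IsHomogeneous m := hF
  show ps k r F ∈ _
  rw [ps, aeval_def, eval₂_eq']
  refine Submodule.sum_mem _ fun d hd => ?_
  rw [← Algebra.smul_def]
  refine Submodule.smul_mem _ _ ?_
  have h1 : ∑ i, d i = m := by
    have := hF'.degree_eq_sum_deg_support hd
    rw [this]
    symm
    refine Finset.sum_subset (Finset.subset_univ _) fun i _ hi => ?_
    simpa using hi
  have h2 : ∀ s : Finset (Fin (4 + 1)), ∏ i ∈ s, ph k r i ^ d i ∈ SS k r (2 * ∑ i ∈ s, d i) := by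
    intro s
    classical
    induction s using Finset.induction_on with
    | empty => simpa using one_mem_SS r
    | insert i s his ih =>
      rw [Finset.prod_insert his, Finset.sum_insert his, mul_add]
      exact mul_mem_SS (pow_mem_SS r i _) ih
  rw [← h1]
  exact h2 Finset.univ

end Curve

section Hilbert

variable {k : Type*} [Field k]

/-- restriction of forms of degree `m` to the curve -/
noncomputable def AA (k : Type*) [Field k] (r m : ℕ) : Submodule k (Polynomial k) :=
  Submodule.map (ps k r).toLinearMap (homogeneousSubmodule (Fin (4 + 1)) k m)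

lemma ps_X (r : ℕ) (i : Fin 5) : ps k r (X i) = ph k r i := by
  simp [ps]

lemma ph_mul_mem {r m : ℕ} (i : Fin 5) {f : Polynomial k} (hf : f ∈ AA k r m) :
    ph k r i * f ∈ AA k r (m + 1) := by
  obtain ⟨F, hF, rfl⟩ := hf
  refine ⟨X i * F, ?_, ?_⟩
  · have := (isHomogeneous_X k (i : Fin (4 + 1))).mul (hF : F.IsHomogeneous m)
    rw [add_comm] at this
    exact this
  · show ps k r (X i * F) = ph k r i * ps k r F
    rw [map_mul, ps_X]

lemma mem_AA_two {r : ℕ} {F : MvPolynomial (Fin (4 + 1)) k} (hF : F.IsHomogeneous 2) :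
    ps k r F ∈ AA k r 2 := ⟨F, hF, rfl⟩

lemma base_aux {A : Type*} [CommRing A] [Algebra k A] (W : Submodule k A) (t w : A) (y : Fin 5 → A)
    (p0 : y 0 = t) (p1 : y 1 = w) (p2 : y 2 = t * w) (p3 : y 3 = 1 - t ^ 2)
    (p4 : y 4 = t ^ 2 - w ^ 2) (hp : ∀ i j, y i * y j ∈ W) (b c : ℕ) (h : b + c ≤ 4) :
    t ^ b * w ^ c ∈ W := by
  have hcases : (b = 0 ∧ c = 0) ∨ (b = 1 ∧ c = 0) ∨ (b = 2 ∧ c = 0) ∨ (b = 3 ∧ c = 0) ∨
      (b = 4 ∧ c = 0) ∨ (b = 0 ∧ c = 1) ∨ (b = 1 ∧ c = 1) ∨ (b = 2 ∧ c = 1) ∨ (b = 3 ∧ c = 1) ∨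
      (b = 0 ∧ c = 2) ∨ (b = 1 ∧ c = 2) ∨ (b = 2 ∧ c = 2) ∨ (b = 0 ∧ c = 3) ∨ (b = 1 ∧ c = 3) ∨
      (b = 0 ∧ c = 4) := by omega
  rcases hcases with ⟨rfl, rfl⟩ | ⟨rfl, rfl⟩ | ⟨rfl, rfl⟩ | ⟨rfl, rfl⟩ | ⟨rfl, rfl⟩ | ⟨rfl, rfl⟩ |
    ⟨rfl, rfl⟩ | ⟨rfl, rfl⟩ | ⟨rfl, rfl⟩ | ⟨rfl, rfl⟩ | ⟨rfl, rfl⟩ | ⟨rfl, rfl⟩ | ⟨rfl, rfl⟩ |
    ⟨rfl, rfl⟩ | ⟨rfl, rfl⟩
  · have e := W.add_mem (W.sub_mem (W.add_mem (W.add_mem (hp 3 3) (hp 0 0)) (hp 1 1)) (hp 2 2))
      (hp 3 4)
    rw [p0, p1, p2, p3, p4] at e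
    convert e using 1; ring
  · have e := W.add_mem (W.add_mem (hp 0 3) (hp 0 4)) (hp 1 2)
    rw [p0, p1, p2, p3, p4] at e
    convert e using 1; ring
  · have e := hp 0 0
    rw [p0] at e
    convert e using 1; ring
  · have e := W.add_mem (hp 0 4) (hp 1 2)
    rw [p0, p1, p2, p4] at e
    convert e using 1; ring
  · have e := W.sub_mem (W.add_mem (W.sub_mem (hp 0 0) (hp 1 1)) (hp 2 2)) (hp 3 4)
    rw [p0, p1, p2, p3, p4] at e
    convert e using 1; ring
  · have e := W.add_mem (hp 1 3) (hp 0 2)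
    rw [p0, p1, p2, p3] at e
    convert e using 1; ring
  · have e := hp 0 1
    rw [p0, p1] at e
    convert e using 1; ring
  · have e := hp 0 2
    rw [p0, p2] at e
    convert e using 1; ring
  · have e := W.sub_mem (hp 0 1) (hp 2 3)
    rw [p0, p1, p2, p3] at e
    convert e using 1; ring
  · have e := hp 1 1
    rw [p1] at e
    convert e using 1; ring
  · have e := hp 1 2
    rw [p1, p2] at e
    convert e using 1; ring
  · have e := hp 2 2
    rw [p2] at e
    convert e using 1; ring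
  · have e := W.sub_mem (hp 0 2) (hp 1 4)
    rw [p0, p1, p2, p4] at e
    convert e using 1; ring
  · have e := W.sub_mem (W.sub_mem (hp 0 1) (hp 2 3)) (hp 2 4)
    rw [p0, p1, p2, p3, p4] at e
    convert e using 1; ring
  · have e := W.add_mem (W.add_mem (W.add_mem (W.sub_mem (hp 4 4) (hp 0 0)) (hp 1 1)) (hp 2 2))
      (hp 3 4)
    rw [p0, p1, p2, p3, p4] at e
    convert e using 1; ring

lemma base_case (r b c : ℕ) (h : b + c ≤ 4) :
    (Polynomial.X ^ (b + r * c) : Polynomial k) ∈ AA k r 2 := by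
  have hp : ∀ i j : Fin 5, ph k r i * ph k r j ∈ AA k r 2 := by
    intro i j
    have := mem_AA_two (r := r) ((isHomogeneous_X k (i : Fin (4 + 1))).mul
      (isHomogeneous_X k (j : Fin (4 + 1))))
    rwa [map_mul, ps_X, ps_X] at this
  have h1 := base_aux (AA k r 2) Polynomial.X (Polynomial.X ^ r) (ph k r) rfl rfl
    (by show Polynomial.X ^ (r + 1) = _; ring) rfl
    (by show Polynomial.X ^ 2 - Polynomial.X ^ (2 * r) = _; ring) hp b c h
  rwa [← pow_mul, ← pow_add] at h1

lemma X_pow_mem_AA (r m b c : ℕ) (h : b + c ≤ 2 * (m + 2)) :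
    (Polynomial.X ^ (b + r * c) : Polynomial k) ∈ AA k r (m + 2) := by
  induction m generalizing b c with
  | zero => exact base_case r b c (by omega)
  | succ m ih =>
    have p0 : ph k r 0 = Polynomial.X := rfl
    have p1 : ph k r 1 = Polynomial.X ^ r := rfl
    have p2 : ph k r 2 = Polynomial.X ^ (r + 1) := rfl
    have p3 : ph k r 3 = 1 - Polynomial.X ^ 2 := rfl
    have p4 : ph k r 4 = Polynomial.X ^ 2 - Polynomial.X ^ (2 * r) := rfl
    have key : ∀ f : Polynomial k, f ∈ AA k r (m + 1 + 2) → ∀ g : Polynomial k, g = f →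
        g ∈ AA k r (m + 1 + 2) := by
      rintro f hf g rfl; exact hf
    have hm : m + 1 + 2 = (m + 2) + 1 := by ring
    by_cases hb : b = 0
    · subst hb
      by_cases hc : c = 0
      · subst hc
        refine key _ (Submodule.add_mem _ (hm ▸ ph_mul_mem 3 (ih 0 0 (by omega)))
          (hm ▸ ph_mul_mem 0 (ih 1 0 (by omega)))) _ ?_
        rw [p3, p0]; ring
      · obtain ⟨c', rfl⟩ : ∃ c', c = c' + 1 := ⟨c - 1, by omega⟩
        by_cases hcc : c' + 1 ≤ 2 * (m + 2) + 1
        · refine key _ (hm ▸ ph_mul_mem 1 (ih 0 c' (by omega))) _ ?_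
          rw [p1]; ring
        · obtain ⟨c'', rfl⟩ : ∃ c'', c' = c'' + 1 := ⟨c' - 1, by omega⟩
          refine key _ (Submodule.sub_mem _ (hm ▸ ph_mul_mem 2 (ih 1 (c'' - 1) (by omega)))
            (hm ▸ ph_mul_mem 4 (ih 0 c'' (by omega)))) _ ?_
          obtain ⟨c3, rfl⟩ : ∃ c3, c'' = c3 + 1 := ⟨c'' - 1, by omega⟩
          rw [p2, p4, Nat.add_sub_cancel]; ring
    · obtain ⟨b', rfl⟩ : ∃ b', b = b' + 1 := ⟨b - 1, by omega⟩
      by_cases hc : c = 0
      · subst hc
        by_cases hbb : b' + 1 ≤ 2 * (m + 2) + 1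
        · refine key _ (hm ▸ ph_mul_mem 0 (ih b' 0 (by omega))) _ ?_
          rw [p0]; ring
        · obtain ⟨b'', rfl⟩ : ∃ b'', b' = b'' + 1 := ⟨b' - 1, by omega⟩
          refine key _ (Submodule.add_mem _ (hm ▸ ph_mul_mem 4 (ih b'' 0 (by omega)))
            (hm ▸ ph_mul_mem 2 (ih (b'' - 1) 1 (by omega)))) _ ?_
          obtain ⟨b3, rfl⟩ : ∃ b3, b'' = b3 + 1 := ⟨b'' - 1, by omega⟩
          rw [p2, p4, Nat.add_sub_cancel]; ring
      · obtain ⟨c', rfl⟩ : ∃ c', c = c' + 1 := ⟨c - 1, by omega⟩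
        refine key _ (hm ▸ ph_mul_mem 2 (ih b' c' (by omega))) _ ?_
        rw [p2]; ring

lemma AA_eq (r m : ℕ) : AA k r (m + 2) = SS k r (2 * (m + 2)) := by
  apply le_antisymm (map_le r (m + 2))
  rw [SS, Submodule.span_le]
  rintro _ ⟨b, c, hbc, rfl⟩
  exact X_pow_mem_AA r m b c hbc

/-- index set of the exponents -/
def FI (r j : ℕ) : Finset (Σ _ : ℕ, ℕ) := (Finset.range r).sigma fun b => Finset.range (j + 1 - b)

lemma mem_FI {r j : ℕ} {p : Σ _ : ℕ, ℕ} : p ∈ FI r j ↔ p.1 < r ∧ p.1 + p.2 ≤ j := by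
  rw [FI, Finset.mem_sigma, Finset.mem_range, Finset.mem_range]
  omega

lemma inj_FI {r j : ℕ} {p q : Σ _ : ℕ, ℕ} (hp : p ∈ FI r j) (hq : q ∈ FI r j)
    (h : p.1 + r * p.2 = q.1 + r * q.2) : p = q := by
  rw [mem_FI] at hp hq
  have h1 : p.1 = q.1 := by
    have := congrArg (· % r) h
    simp only [Nat.add_mul_mod_self_left] at this
    rwa [Nat.mod_eq_of_lt hp.1, Nat.mod_eq_of_lt hq.1] at this
  have h2 : p.2 = q.2 := by
    rw [h1] at h
    have h3 : r * p.2 = r * q.2 := by omega
    exact Nat.eq_of_mul_eq_mul_left (by omega) h3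
  exact Sigma.ext h1 (by rw [h2])

lemma SS_eq (r j : ℕ) (hr : 1 ≤ r) : SS k r j = Submodule.span k
    (Set.range fun p : FI r j => (Polynomial.X ^ (p.1.1 + r * p.1.2) : Polynomial k)) := by
  apply le_antisymm
  · rw [SS, Submodule.span_le]
    rintro _ ⟨b, c, hbc, rfl⟩
    have h1 : b / r ≤ r * (b / r) := Nat.le_mul_of_pos_left _ hr
    have h2 := Nat.mod_add_div b r
    have h3 : (⟨b % r, c + b / r⟩ : Σ _ : ℕ, ℕ) ∈ FI r j := by
      rw [mem_FI]
      exact ⟨Nat.mod_lt _ hr, by simp only; omega⟩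
    apply Submodule.subset_span
    refine ⟨⟨_, h3⟩, ?_⟩
    simp only
    congr 1
    rw [mul_add]
    omega
  · rw [Submodule.span_le]
    rintro _ ⟨⟨p, hp⟩, rfl⟩
    exact X_pow_mem (mem_FI.1 hp).2

lemma finrank_SS (r j : ℕ) (hr : 1 ≤ r) : Module.finrank k (SS k r j) = (FI r j).card := by
  rw [SS_eq r j hr, finrank_span_eq_card, Fintype.card_coe]
  have h := (Polynomial.basisMonomials k).linearIndependent.comp
    (fun p : FI r j => p.1.1 + r * p.1.2) (by
      intro p q hpq
      exact Subtype.ext (inj_FI p.2 q.2 hpq))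
  convert h using 1
  funext p
  simp [Polynomial.X_pow_eq_monomial]

lemma card_FI (r j : ℕ) (h : r ≤ j + 1) :
    ((FI r j).card : ℚ) = r * (j + 1) - r * (r - 1) / 2 := by
  rw [FI, Finset.card_sigma]
  simp only [Finset.card_range]
  induction r with
  | zero => simp
  | succ r ih =>
    rw [Finset.sum_range_succ, Nat.cast_add, ih (by omega), Nat.cast_sub (by omega)]
    push_cast
    ring

lemma hilbertFunction_II (r m : ℕ) : hilbertFunction (II k r) m = Module.finrank k (AA k r m) := by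
  rw [hilbertFunction, AA]
  set H := homogeneousSubmodule (Fin (4 + 1)) k m
  set f : MvPolynomial (Fin (4 + 1)) k →ₗ[k] _ := (Ideal.Quotient.mkₐ k (II k r)).toLinearMap
  set g : MvPolynomial (Fin (4 + 1)) k →ₗ[k] _ := (ps k r).toLinearMap
  have hk : LinearMap.ker (f.domRestrict H) = LinearMap.ker (g.domRestrict H) := by
    ext ⟨F, hF⟩
    rw [LinearMap.mem_ker, LinearMap.mem_ker]
    show Ideal.Quotient.mk (II k r) F = 0 ↔ ps k r F = 0
    rw [Ideal.Quotient.eq_zero_iff_mem, mem_II_of_isHomogeneous hF]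
  have e1 : LinearMap.range (f.domRestrict H) = Submodule.map f H := by
    rw [LinearMap.range_domRestrict]
  have e2 : LinearMap.range (g.domRestrict H) = Submodule.map g H := by
    rw [LinearMap.range_domRestrict]
  rw [← e1, ← e2]
  have e3 := (f.domRestrict H).quotKerEquivRange.finrank_eq
  have e4 := (g.domRestrict H).quotKerEquivRange.finrank_eq
  rw [← e3, ← e4, hk]

lemma II_isVariety (r : ℕ) (hr : 1 ≤ r) : IsVariety (II k r) 1 (2 * r) where
  prime := II_prime r
  homogeneous := fun F hF m => II_homogeneous hF m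
  hilbert := by
    have hr0 : (2 * (r : ℚ)) ≠ 0 := by
      have : (0 : ℚ) < r := by exact_mod_cast hr
      positivity
    refine ⟨Polynomial.C (2 * (r : ℚ)) * Polynomial.X + Polynomial.C ((r : ℚ) - r * (r - 1) / 2),
      ?_, ?_, ?_, r + 2, ?_⟩
    · intro h
      have := congrArg Polynomial.leadingCoeff h
      rw [Polynomial.leadingCoeff_linear hr0, Polynomial.leadingCoeff_zero] at this
      exact hr0 this
    · exact Polynomial.natDegree_linear hr0
    · rw [Polynomial.leadingCoeff_linear hr0]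
      simp
    · intro m hm
      obtain ⟨m', rfl⟩ : ∃ m', m = m' + 2 := ⟨m - 2, by omega⟩
      rw [hilbertFunction_II, AA_eq, finrank_SS r _ hr, card_FI r _ (by omega)]
      simp only [Polynomial.eval_add, Polynomial.eval_mul, Polynomial.eval_C, Polynomial.eval_X]
      push_cast
      ring

end Hilbert

section Quadrics

variable {k : Type*} [Field k]

lemma finrank_quadrics : Module.finrank k (homogeneousSubmodule (Fin (4 + 1)) k 2) ≤ 15 := by
  classical
  let T : Finset (Fin 5 × Fin 5) := Finset.univ.filter fun p => p.1 ≤ p.2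
  let s : Finset (MvPolynomial (Fin (4 + 1)) k) := T.image fun p => X p.1 * X p.2
  have h1 : homogeneousSubmodule (Fin (4 + 1)) k 2 ≤ Submodule.span k (s : Set _) := by
    rw [← homogeneousSubmodule_one_pow, pow_two, homogeneousSubmodule_one_eq_span_X,
      Submodule.span_mul_span, Submodule.span_le]
    rintro _ ⟨_, ⟨i, rfl⟩, _, ⟨j, rfl⟩, rfl⟩
    apply Submodule.subset_span
    rw [Finset.mem_coe, Finset.mem_image]
    rcases le_total i j with h | h
    · exact ⟨(i, j), by simpa [T] using h, rfl⟩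
    · exact ⟨(j, i), by simpa [T] using h, mul_comm _ _⟩
  have h2 : Module.finrank k (Submodule.span k (s : Set (MvPolynomial (Fin (4 + 1)) k))) ≤ s.card :=
    finrank_span_finset_le_card s
  have h3 : s.card ≤ 15 := Finset.card_image_le.trans (by decide)
  have h4 := Submodule.finrank_mono h1
  omega

lemma card_FI_four (r : ℕ) (hr : 5 ≤ r) : (FI r 4).card = 15 := by
  have : FI r 4 = FI 5 4 := by
    ext p
    rw [mem_FI, mem_FI]
    omega
  rw [this]
  decide

lemma onNoQuadric (r : ℕ) (hr : 5 ≤ r) : OnNoHypersurface (II k r) 2 := by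
  intro Q hQ hQI
  rw [mem_II_of_isHomogeneous hQ] at hQI
  let g := (ps k r).toLinearMap.domRestrict (homogeneousSubmodule (Fin (4 + 1)) k 2)
  have : Module.Finite k (homogeneousSubmodule (Fin (4 + 1)) k 2) :=
    Module.Finite.iff_fg.2 (homogeneousSubmodule_fg _ _ _)
  have h1 := g.finrank_range_add_finrank_ker
  have h2 : LinearMap.range g = AA k r 2 := by
    rw [LinearMap.range_domRestrict]; rfl
  have h3 : Module.finrank k (LinearMap.range g) = 15 := by
    rw [h2]
    have := AA_eq (k := k) r 0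
    rw [this, finrank_SS r _ (by omega)]
    exact card_FI_four r hr
  have h4 := finrank_quadrics (k := k)
  have h5 : Module.finrank k (LinearMap.ker g) = 0 := by omega
  have h6 : LinearMap.ker g = ⊥ := Submodule.finrank_eq_zero.1 h5
  have h7 : (⟨Q, hQ⟩ : homogeneousSubmodule (Fin (4 + 1)) k 2) ∈ LinearMap.ker g := by
    rw [LinearMap.mem_ker]
    exact hQI
  rw [h6, Submodule.mem_bot] at h7
  exact congrArg Subtype.val h7

/-- the quadrics restricting to the coordinates -/
noncomputable def GG (k : Type*) [Field k] : Fin 5 → MvPolynomial (Fin (4 + 1)) k :=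
  ![X 0 * X 3 + X 0 * X 4 + X 1 * X 2, X 1 * X 3 + X 0 * X 2, X 0 * X 1,
    X 3 * X 3 + X 3 * X 4 + X 1 * X 1 - X 2 * X 2, X 0 * X 0 - X 1 * X 1]

lemma GG_hom (i : Fin 5) : (GG k i).IsHomogeneous 2 := by
  have hxx : ∀ i j : Fin (4 + 1), (X i * X j : MvPolynomial (Fin (4 + 1)) k).IsHomogeneous 2 :=
    fun i j => (isHomogeneous_X k i).mul (isHomogeneous_X k j)
  fin_cases i
  · exact ((hxx 0 3).add (hxx 0 4)).add (hxx 1 2)
  · exact (hxx 1 3).add (hxx 0 2)
  · exact hxx 0 1
  · exact (((hxx 3 3).add (hxx 3 4)).add (hxx 1 1)).sub (hxx 2 2)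
  · exact (hxx 0 0).sub (hxx 1 1)

lemma ps_GG (r : ℕ) (i : Fin 5) : ps k r (GG k i) = ph k r i := by
  have q0 : ps k r (X 0) = Polynomial.X := ps_X r 0
  have q1 : ps k r (X 1) = Polynomial.X ^ r := ps_X r 1
  have q2 : ps k r (X 2) = Polynomial.X ^ (r + 1) := ps_X r 2
  have q3 : ps k r (X 3) = 1 - Polynomial.X ^ 2 := ps_X r 3
  have q4 : ps k r (X 4) = Polynomial.X ^ 2 - Polynomial.X ^ (2 * r) := ps_X r 4
  fin_cases i
  · show ps k r (X 0 * X 3 + X 0 * X 4 + X 1 * X 2) = Polynomial.X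
    rw [map_add, map_add, map_mul, map_mul, map_mul, q0, q1, q2, q3, q4]
    ring
  · show ps k r (X 1 * X 3 + X 0 * X 2) = Polynomial.X ^ r
    rw [map_add, map_mul, map_mul, q0, q1, q2, q3]
    ring
  · show ps k r (X 0 * X 1) = Polynomial.X ^ (r + 1)
    rw [map_mul, q0, q1]
    ring
  · show ps k r (X 3 * X 3 + X 3 * X 4 + X 1 * X 1 - X 2 * X 2) = 1 - Polynomial.X ^ 2
    rw [map_sub, map_add, map_add, map_mul, map_mul, map_mul, map_mul, q1, q2, q3, q4]
    ring
  · show ps k r (X 0 * X 0 - X 1 * X 1) = Polynomial.X ^ 2 - Polynomial.X ^ (2 * r)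
    rw [map_sub, map_mul, map_mul, q0, q1]
    ring

lemma ps_linear (r : ℕ) (a : Fin 5 → k) : ps k r (∑ j, C (a j) * X j) =
    Polynomial.C (a 0) * Polynomial.X + Polynomial.C (a 1) * Polynomial.X ^ r
      + Polynomial.C (a 2) * Polynomial.X ^ (r + 1)
      + Polynomial.C (a 3) * (1 - Polynomial.X ^ 2)
      + Polynomial.C (a 4) * (Polynomial.X ^ 2 - Polynomial.X ^ (2 * r)) := by
  rw [map_sum]
  simp only [map_mul, ps_X, algHom_C, Polynomial.algebraMap_eq]
  rw [Fin.sum_univ_five]
  rfl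

lemma not_ND [Infinite k] (r : ℕ) (hr : 5 ≤ r) : ¬ SatisfiesND (II k r) 3 2 := by
  intro hND
  obtain ⟨G, hG0, hG⟩ := hND 3 le_rfl (by norm_num)
  have hi0 : 0 < 4 - 3 := by norm_num
  let i0 : Fin (4 - 3) := ⟨0, hi0⟩
  have huniq : ∀ i : Fin (4 - 3), i = i0 := fun i => Fin.ext (by have := i.2; simp only [i0]; omega)
  -- choose the hyperplane
  obtain ⟨v, hv⟩ : ∃ v : Fin (4 - 3) × Fin (4 + 1) → k, eval v (G * X (i0, 0)) ≠ 0 := by
    by_contra hcon
    push Not at hcon
    have : G * X (i0, 0) = 0 := MvPolynomial.funext fun v => by rw [hcon v, map_zero]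
    rcases mul_eq_zero.1 this with h | h
    · exact hG0 h
    · exact X_ne_zero _ h
  rw [map_mul, eval_X] at hv
  have hvG : eval v G ≠ 0 := left_ne_zero_of_mul hv
  have hv0 : v (i0, 0) ≠ 0 := right_ne_zero_of_mul hv
  let a : Fin (4 - 3) → Fin (4 + 1) → k := fun i j => v (i, j)
  let b : Fin 5 → k := fun j => v (i0, j)
  let h : MvPolynomial (Fin (4 + 1)) k := ∑ j, C (b j) * X j
  let Q : MvPolynomial (Fin (4 + 1)) k := ∑ j, C (b j) * GG k j
  have hmem : h ∈ linearIdeal a := Ideal.subset_span ⟨i0, rfl⟩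
  have hle : linearIdeal a ≤ Ideal.span {h} := by
    rw [linearIdeal, Ideal.span_le]
    rintro _ ⟨i, rfl⟩
    have hi := huniq i
    subst hi
    exact Ideal.mem_span_singleton_self h
  have hQhom : Q.IsHomogeneous 2 := IsHomogeneous.sum _ _ _ fun j _ => (GG_hom j).C_mul _
  have hhhom : h.IsHomogeneous 1 := IsHomogeneous.sum _ _ _ fun j _ =>
    (isHomogeneous_X k (j : Fin (4 + 1))).C_mul _
  have hXQ : ∀ i : Fin 5, X i * Q ∈ II k r ⊔ linearIdeal a := by
    intro i
    have h1 : X i * Q = (∑ j, C (b j) * (X i * GG k j - GG k i * X j)) + GG k i * h := by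
      simp only [Q, h, Finset.mul_sum, ← Finset.sum_add_distrib]
      refine Finset.sum_congr rfl fun j _ => ?_
      ring
    rw [h1]
    refine Ideal.add_mem _ (Ideal.mem_sup_left (Ideal.sum_mem _ fun j _ =>
      Ideal.mul_mem_left _ _ ?_)) (Ideal.mem_sup_right (Ideal.mul_mem_left _ _ hmem))
    have h2 : (X i * GG k j - GG k i * X j : MvPolynomial (Fin (4 + 1)) k).IsHomogeneous 3 := by
      have t1 := (isHomogeneous_X k (i : Fin (4 + 1))).mul (GG_hom (k := k) j)
      have t2 := (GG_hom (k := k) i).mul (isHomogeneous_X k (j : Fin (4 + 1)))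
      exact t1.sub t2
    rw [mem_II_of_isHomogeneous h2, map_sub, map_mul, map_mul, ps_X, ps_X, ps_GG, ps_GG, sub_self]
  have hQ := hG a hvG Q hQhom ⟨1, fun M hM => by
    obtain ⟨c, rfl⟩ := exists_linear hM
    rw [Finset.sum_mul]
    refine Ideal.sum_mem _ fun i _ => ?_
    rw [mul_assoc]
    exact Ideal.mul_mem_left _ _ (hXQ i)⟩
  obtain ⟨P, hP⟩ := Ideal.mem_span_singleton.1 (hle hQ)
  -- `ps h ≠ 0`
  have hr0 : r ≠ 0 := by omega
  have hpsh : ps k r h ≠ 0 := by
    intro h0
    have h1 := congrArg (fun f => Polynomial.coeff f 1) h0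
    simp only [h] at h1
    rw [ps_linear] at h1
    simp only [Polynomial.coeff_add, Polynomial.coeff_sub, Polynomial.coeff_C_mul,
      Polynomial.coeff_X_one, Polynomial.coeff_X_pow, Polynomial.coeff_one,
      Polynomial.coeff_zero] at h1
    rw [if_neg (by omega), if_neg (by omega), if_neg (by omega), if_neg (by omega),
      if_neg (by omega)] at h1
    apply hv0
    simpa using h1
  have hpsQ : ps k r Q = ps k r h := by
    simp only [Q, h, map_sum, map_mul, ps_GG, ps_X]
  have hQ0 : Q ≠ 0 := by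
    intro h0
    apply hpsh
    rw [← hpsQ, h0, map_zero]
  obtain ⟨d, hd, hd1⟩ := isHomogeneous_right hhhom (by rw [← hP]; exact hQ0)
    (by rw [← hP]; exact hQhom)
  have hd2 : d = 1 := by omega
  subst hd2
  obtain ⟨p, rfl⟩ := exists_linear hd
  have hP1 : ps k r (∑ j, C (p j) * X j) = 1 := by
    have h1 := hpsQ
    rw [hP, map_mul] at h1
    have h2 : ps k r h * (ps k r (∑ j, C (p j) * X j) - 1) = 0 := by
      rw [mul_sub, h1, mul_one, sub_self]
    rcases mul_eq_zero.1 h2 with h3 | h3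
    · exact absurd h3 hpsh
    · exact sub_eq_zero.1 h3
  rw [ps_linear] at hP1
  have c0 := congrArg (fun f => Polynomial.coeff f 0) hP1
  have c2 := congrArg (fun f => Polynomial.coeff f 2) hP1
  have c4 := congrArg (fun f => Polynomial.coeff f (2 * r)) hP1
  simp only [Polynomial.coeff_add, Polynomial.coeff_sub, Polynomial.coeff_C_mul,
    Polynomial.coeff_X, Polynomial.coeff_X_pow, Polynomial.coeff_one] at c0 c2 c4
  have n1 : ¬ (1 = 0) := by omega
  have n2 : ¬ (0 = r) := by omega
  have n3 : ¬ (0 = r + 1) := by omega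
  have n4 : ¬ (0 = 2) := by omega
  have n5 : ¬ (0 = 2 * r) := by omega
  have n6 : ¬ (1 = 2) := by omega
  have n7 : ¬ (2 = r) := by omega
  have n8 : ¬ (2 = r + 1) := by omega
  have n9 : ¬ (2 = 0) := by omega
  have n10 : ¬ (2 = 2 * r) := by omega
  have n11 : ¬ (1 = 2 * r) := by omega
  have n12 : ¬ (2 * r = r) := by omega
  have n13 : ¬ (2 * r = r + 1) := by omega
  have n14 : ¬ (2 * r = 0) := by omega
  have n15 : ¬ (2 * r = 2) := by omega
  simp only [if_neg n1, if_neg n2, if_neg n3, if_neg n4, if_neg n5, if_true, mul_zero, mul_one,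
    add_zero, zero_add, sub_zero, sub_self] at c0
  simp only [if_neg n6, if_neg n7, if_neg n8, if_neg n9, if_neg n10, if_true, mul_zero, mul_one,
    add_zero, zero_add, sub_zero, zero_sub] at c2
  simp only [if_neg n11, if_neg n12, if_neg n13, if_neg n14, if_neg n15, if_true, mul_zero,
    mul_one, add_zero, zero_add, sub_zero, zero_sub, sub_self] at c4
  have e4 : p 4 = 0 := by linear_combination -c4
  rw [c0, e4] at c2
  simp at c2

end Quadrics

/-- For every algebraically closed field `k` of characteristic zero and every bound `f` there is a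
variety in projective four-space, of dimension one (so of codimension three) and degree larger than
`f`, which lies on no quadric and does not satisfy condition ND(2). -/
theorem result (k : Type*) [Field k] [IsAlgClosed k] [CharZero k] :
    ∀ f : ℕ, ∃ (d : ℕ) (I : Ideal (MvPolynomial (Fin (4 + 1)) k)),
      f < d ∧ IsVariety I 1 d ∧ OnNoHypersurface I 2 ∧ ¬ SatisfiesND I 3 2 := by
  intro f
  have : Infinite k := IsAlgClosed.instInfinite
  exact ⟨2 * (f + 5), II k (f + 5), by omega, II_isVariety (f + 5) (by omega),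
    onNoQuadric (f + 5) (by omega), not_ND (f + 5) (by omega)⟩

end Pool.Agent.Results.MP_63e4a9_ag.VeroneseCurves
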